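import Mathlib
import Pool.Agent.H3.BI.Stm2

/-!
# Project BD, part MVO
-/

set_option autoImplicit false

open scoped ENNReal
open Finset MeasureTheory Pool.Agent.H3.BI

namespace Pool.Agent.H20.BD

theorem mvo_nsq_neg {d : ℕ} (x : Site d) : nsq (-x) = nsq x := by
  unfold nsq
  refine Finset.sum_congr rfl fun i _ => ?_
  simp

theorem mvo_nrm_neg {d : ℕ} (x : Site d) : nrm (-x) = nrm x := by
  unfold nrm
  rw [mvo_nsq_neg]

theorem mvo_nrm_zero {d : ℕ} : nrm (0 : Site d) = 0 := by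
  unfold nrm nsq
  simp

/-- symmetrisation -/
theorem mvo_symm {d : ℕ} (R : ℝ) (g : Site d → ℝ) :
    ∑ x ∈ bF d R, g (-x) = ∑ x ∈ bF d R, g x := by
  refine Finset.sum_nbij' (fun x => -x) (fun x => -x) ?_ ?_ ?_ ?_ ?_
  · intro x hx
    rw [mem_bF] at hx ⊢
    rwa [mvo_nrm_neg]
  · intro x hx
    rw [mem_bF] at hx ⊢
    rwa [mvo_nrm_neg]
  · intro x _; exact neg_neg x
  · intro x _; exact neg_neg x
  · intro x _; rfl

theorem t_MVO : S_MVO := by
  classical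
  intro hSPR hMMT hLAT d hd
  obtain ⟨a₁, ha₁, -, hS⟩ := hSPR d hd
  obtain ⟨a₂, ha₂, hM⟩ := hMMT d hd
  obtain ⟨L, hL1, hL⟩ := hLAT d hd
  refine ⟨max a₁ a₂, ha₁.trans (le_max_left _ _), ?_⟩
  intro a κ ha hκ hκ1
  obtain ⟨c, hc1, -, hmm⟩ := hS a ((le_max_left _ _).trans ha)
  have hsum := hM a ((le_max_right _ _).trans ha)
  have hd0 : (0 : ℝ) < d := by
    have : 0 < d := by omega
    exact_mod_cast this
  have hc0 : 0 < c := lt_of_lt_of_le one_pos hc1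
  have hL0 : 0 < L := lt_of_lt_of_le one_pos hL1
  obtain ⟨C, hC⟩ : ∃ C : ℝ, C = 1 + 1 / κ + c * L + c * L / κ ^ 2 + c / κ ^ (d + 2) := ⟨_, rfl⟩
  have hk1 : 0 < 1 / κ := by positivity
  have hk2 : 0 < c * L := by positivity
  have hk3 : 0 < c * L / κ ^ 2 := by positivity
  have hk4 : 0 < c / κ ^ (d + 2) := by positivity
  refine ⟨C, by rw [hC]; linarith, ?_⟩
  intro ρ B f hρ hB hf hsym
  have hρ1 : 1 ≤ ρ := by rw [hC] at hρ; linarith
  have hρ0 : 0 < ρ := lt_of_lt_of_le one_pos hρ1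
  have hκρ : 1 ≤ κ * ρ := by
    have : 1 / κ ≤ ρ := by rw [hC] at hρ; linarith
    rw [div_le_iff₀ hκ] at this
    linarith
  have hκρ0 : 0 < κ * ρ := lt_of_lt_of_le one_pos hκρ
  have hκρρ : κ * ρ ≤ ρ := by nlinarith
  have hf0 : 0 ≤ f 0 := hf 0 (by rw [mvo_nrm_zero]; exact hρ0.le)
  have hlog : 0 ≤ Real.log ρ := Real.log_nonneg hρ1
  have hsub : bF d (κ * ρ) ⊆ bF d ρ := by
    intro x hx
    rw [mem_bF] at hx ⊢
    exact hx.trans hκρρ
  -- the tail of the mass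
  have htail : ∀ Y : Finset (Site d), (∀ y ∈ Y, κ * ρ ≤ nrm y) →
      ∑ y ∈ Y, mm d a y ≤ c * L / (κ * ρ) ^ 2 := by
    intro Y hY
    have h1 := (hL (κ * ρ) 0 Y hκρ).2 (by intro y hy; rw [sub_zero]; exact hY y hy)
    simp only [sub_zero] at h1
    calc ∑ y ∈ Y, mm d a y ≤ ∑ y ∈ Y, c * (nsq y + 1) ^ (-((d : ℝ) / 2) - 1) :=
          Finset.sum_le_sum fun y _ => (hmm y).2.2
      _ = c * ∑ y ∈ Y, (nsq y + 1) ^ (-((d : ℝ) / 2) - 1) := by rw [Finset.mul_sum]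
      _ ≤ c * (L / (κ * ρ) ^ 2) := mul_le_mul_of_nonneg_left h1 hc0.le
      _ = c * L / (κ * ρ) ^ 2 := by ring
  -- mass inside
  obtain ⟨S, hSd⟩ : ∃ S : ℝ, S = ∑ x ∈ bF d (κ * ρ), mm d a x := ⟨_, rfl⟩
  have hS1 : S ≤ om d := by
    rw [hSd]
    exact sum_le_hasSum _ (fun x _ => (hmm x).1) hsum
  have hS2 : om d ≤ S + c * L / (κ * ρ) ^ 2 := by
    refine hasSum_le_of_sum_le hsum fun Y => ?_
    rw [← Finset.sum_filter_add_sum_filter_not Y (fun x => x ∈ bF d (κ * ρ))]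
    refine add_le_add ?_ ?_
    · rw [hSd]
      refine Finset.sum_le_sum_of_subset_of_nonneg ?_ fun x _ _ => (hmm x).1
      intro x hx
      exact (Finset.mem_filter.1 hx).2
    · refine htail _ fun y hy => ?_
      have := (Finset.mem_filter.1 hy).2
      rw [mem_bF] at this
      exact (not_le.1 this).le
  -- the inner part
  have hin : ∑ x ∈ bF d (κ * ρ), mm d a x * f x =
      f 0 * S + 1 / 2 * ∑ x ∈ bF d (κ * ρ), mm d a x * (f x + f (-x) - 2 * f 0) := by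
    have h1 := mvo_symm (κ * ρ) (fun x => mm d a x * f x)
    have h2 : ∑ x ∈ bF d (κ * ρ), mm d a (-x) * f (-x) =
        ∑ x ∈ bF d (κ * ρ), mm d a x * f (-x) :=
      Finset.sum_congr rfl fun x _ => by rw [(hmm x).2.1]
    rw [h2] at h1
    have h3 : ∑ x ∈ bF d (κ * ρ), mm d a x * (f x + f (-x) - 2 * f 0) =
        ∑ x ∈ bF d (κ * ρ), mm d a x * f x + ∑ x ∈ bF d (κ * ρ), mm d a x * f (-x)
          - 2 * (f 0 * S) := by
      rw [hSd, Finset.mul_sum, Finset.mul_sum, ← Finset.sum_add_distrib, ← Finset.sum_sub_distrib]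
      exact Finset.sum_congr rfl fun x _ => by ring
    rw [h3, h1]
    ring
  have herr : |∑ x ∈ bF d (κ * ρ), mm d a x * (f x + f (-x) - 2 * f 0)| ≤
      B * (c * (L * (1 + Real.log ρ))) := by
    have h1 := ((hL ρ 0 (bF d (κ * ρ)) hρ1).1 (by
      intro y hy; rw [sub_zero]; rw [mem_bF] at hy; exact hy.trans hκρρ)).2.2
    simp only [sub_zero] at h1
    calc |∑ x ∈ bF d (κ * ρ), mm d a x * (f x + f (-x) - 2 * f 0)|
        ≤ ∑ x ∈ bF d (κ * ρ), |mm d a x * (f x + f (-x) - 2 * f 0)| :=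
          Finset.abs_sum_le_sum_abs _ _
      _ ≤ ∑ x ∈ bF d (κ * ρ), B * (c * (nsq x + 1) ^ (-((d : ℝ) / 2))) := by
          refine Finset.sum_le_sum fun x hx => ?_
          rw [mem_bF] at hx
          rw [abs_mul, abs_of_nonneg (hmm x).1]
          have hn := nsq_nonneg x
          have h2 : (nsq x + 1) ^ (-((d : ℝ) / 2) - 1) * (nsq x + 1) =
              (nsq x + 1) ^ (-((d : ℝ) / 2)) := by
            rw [Real.rpow_sub_one (by positivity)]
            field_simp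
          have h3 : 0 ≤ (nsq x + 1) ^ (-((d : ℝ) / 2) - 1) := by positivity
          calc mm d a x * |f x + f (-x) - 2 * f 0|
              ≤ (c * (nsq x + 1) ^ (-((d : ℝ) / 2) - 1)) * (B * nsq x) :=
                mul_le_mul (hmm x).2.2 (hsym x hx) (abs_nonneg _) (by positivity)
            _ ≤ (c * (nsq x + 1) ^ (-((d : ℝ) / 2) - 1)) * (B * (nsq x + 1)) := by
                refine mul_le_mul_of_nonneg_left ?_ (by positivity)
                exact mul_le_mul_of_nonneg_left (by linarith) hB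
            _ = B * (c * ((nsq x + 1) ^ (-((d : ℝ) / 2) - 1) * (nsq x + 1))) := by ring
            _ = B * (c * (nsq x + 1) ^ (-((d : ℝ) / 2))) := by rw [h2]
      _ = B * (c * ∑ x ∈ bF d (κ * ρ), (nsq x + 1) ^ (-((d : ℝ) / 2))) := by
          rw [Finset.mul_sum, Finset.mul_sum]
      _ ≤ B * (c * (L * (1 + Real.log ρ))) := by
          refine mul_le_mul_of_nonneg_left ?_ hB
          exact mul_le_mul_of_nonneg_left h1 hc0.le
  -- the outer part
  have hout0 : 0 ≤ ∑ x ∈ bF d ρ \ bF d (κ * ρ), mm d a x * f x := by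
    refine Finset.sum_nonneg fun x hx => mul_nonneg (hmm x).1 (hf x ?_)
    have := (Finset.mem_sdiff.1 hx).1
    rwa [mem_bF] at this
  have hout : ∑ x ∈ bF d ρ \ bF d (κ * ρ), mm d a x * f x ≤
      c / (κ * ρ) ^ (d + 2) * ∑ x ∈ bF d ρ, f x := by
    calc ∑ x ∈ bF d ρ \ bF d (κ * ρ), mm d a x * f x
        ≤ ∑ x ∈ bF d ρ \ bF d (κ * ρ), c / (κ * ρ) ^ (d + 2) * f x := by
          refine Finset.sum_le_sum fun x hx => ?_
          obtain ⟨hx1, hx2⟩ := Finset.mem_sdiff.1 hx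
          rw [mem_bF] at hx1 hx2
          push Not at hx2
          refine mul_le_mul_of_nonneg_right ?_ (hf x hx1)
          refine (hmm x).2.2.trans ?_
          rw [div_eq_mul_inv]
          refine mul_le_mul_of_nonneg_left ?_ hc0.le
          have h1 : (κ * ρ) ^ 2 ≤ nsq x + 1 := by
            have : (κ * ρ) ^ 2 ≤ nrm x ^ 2 := pow_le_pow_left₀ hκρ0.le hx2.le 2
            rw [nrm_sq] at this
            linarith
          have h2 : (nsq x + 1) ^ (-((d : ℝ) / 2) - 1) ≤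
              ((κ * ρ) ^ 2) ^ (-((d : ℝ) / 2) - 1) :=
            Real.rpow_le_rpow_of_nonpos (by positivity) h1 (by linarith)
          refine h2.trans (le_of_eq ?_)
          rw [← Real.rpow_natCast (κ * ρ) 2, ← Real.rpow_mul hκρ0.le,
            ← Real.rpow_natCast (κ * ρ) (d + 2), ← Real.rpow_neg hκρ0.le]
          congr 1
          push_cast
          ring
      _ = c / (κ * ρ) ^ (d + 2) * ∑ x ∈ bF d ρ \ bF d (κ * ρ), f x := by rw [Finset.mul_sum]
      _ ≤ c / (κ * ρ) ^ (d + 2) * ∑ x ∈ bF d ρ, f x := by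
          refine mul_le_mul_of_nonneg_left ?_ (by positivity)
          refine Finset.sum_le_sum_of_subset_of_nonneg Finset.sdiff_subset fun x hx _ => ?_
          rw [mem_bF] at hx
          exact hf x hx
  have hFnn : 0 ≤ ∑ x ∈ bF d ρ, f x := Finset.sum_nonneg fun x hx => by
    rw [mem_bF] at hx
    exact hf x hx
  have hsplit : ∑ x ∈ bF d ρ, mm d a x * f x =
      ∑ x ∈ bF d ρ \ bF d (κ * ρ), mm d a x * f x + ∑ x ∈ bF d (κ * ρ), mm d a x * f x :=
    (Finset.sum_sdiff hsub).symm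
  obtain ⟨F, hF⟩ : ∃ F : ℝ, F = ∑ x ∈ bF d ρ, f x := ⟨_, rfl⟩
  obtain ⟨O, hO⟩ : ∃ O : ℝ, O = ∑ x ∈ bF d ρ \ bF d (κ * ρ), mm d a x * f x := ⟨_, rfl⟩
  obtain ⟨e, he⟩ : ∃ e : ℝ, e = ∑ x ∈ bF d (κ * ρ), mm d a x * (f x + f (-x) - 2 * f 0) :=
    ⟨_, rfl⟩
  rw [← hF] at hout hFnn
  rw [← hO] at hout hout0 hsplit
  rw [← he] at herr hin
  rw [hsplit, hin, ← hF]
  have hρd : 0 < ρ ^ d := by positivity
  have e1 : ρ ^ d * (O + (f 0 * S + 1 / 2 * e)) - om d * ρ ^ d * f 0 =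
      ρ ^ d * (O + 1 / 2 * e + f 0 * (S - om d)) := by ring
  rw [e1, abs_mul, abs_of_pos hρd]
  have h1 : |O + 1 / 2 * e + f 0 * (S - om d)| ≤ c / (κ * ρ) ^ (d + 2) * F +
      B * (c * (L * (1 + Real.log ρ))) + f 0 * (c * L / (κ * ρ) ^ 2) := by
    have i1 : |O| ≤ c / (κ * ρ) ^ (d + 2) * F := by rw [abs_of_nonneg hout0]; exact hout
    have i2 : |1 / 2 * e| ≤ B * (c * (L * (1 + Real.log ρ))) := by
      rw [abs_mul, abs_of_pos (by norm_num : (0 : ℝ) < 1 / 2)]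
      have := abs_nonneg e
      linarith
    have i3 : |f 0 * (S - om d)| ≤ f 0 * (c * L / (κ * ρ) ^ 2) := by
      rw [abs_mul, abs_of_nonneg hf0]
      refine mul_le_mul_of_nonneg_left ?_ hf0
      rw [abs_le]
      have : 0 < c * L / (κ * ρ) ^ 2 := by positivity
      constructor <;> linarith
    have i4 := abs_add_le (O + 1 / 2 * e) (f 0 * (S - om d))
    have i5 := abs_add_le O (1 / 2 * e)
    linarith
  have h2 : ρ ^ d * (c / (κ * ρ) ^ (d + 2) * F + B * (c * (L * (1 + Real.log ρ))) +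
      f 0 * (c * L / (κ * ρ) ^ 2)) =
      c / κ ^ (d + 2) * (F / ρ ^ 2) + c * L * (ρ ^ d * B * (1 + Real.log ρ)) +
        c * L / κ ^ 2 * (ρ ^ d / ρ ^ 2 * f 0) := by
    have : ρ ^ d * (c / (κ * ρ) ^ (d + 2) * F) = c / κ ^ (d + 2) * (F / ρ ^ 2) := by
      rw [mul_pow, pow_add ρ d 2]
      field_simp
    rw [mul_add, mul_add, this, mul_pow]
    field_simp
  have t1 : 0 ≤ F / ρ ^ 2 := by positivity
  have t2 : 0 ≤ ρ ^ d * B * (1 + Real.log ρ) := by positivity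
  have t3 : 0 ≤ ρ ^ d / ρ ^ 2 * f 0 := by positivity
  calc ρ ^ d * |O + 1 / 2 * e + f 0 * (S - om d)|
      ≤ ρ ^ d * (c / (κ * ρ) ^ (d + 2) * F + B * (c * (L * (1 + Real.log ρ))) +
        f 0 * (c * L / (κ * ρ) ^ 2)) := mul_le_mul_of_nonneg_left h1 hρd.le
    _ = c / κ ^ (d + 2) * (F / ρ ^ 2) + c * L * (ρ ^ d * B * (1 + Real.log ρ)) +
        c * L / κ ^ 2 * (ρ ^ d / ρ ^ 2 * f 0) := h2
    _ ≤ C * (F / ρ ^ 2) + C * (ρ ^ d * B * (1 + Real.log ρ)) + C * (ρ ^ d / ρ ^ 2 * f 0) := by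
        refine add_le_add (add_le_add ?_ ?_) ?_
        · exact mul_le_mul_of_nonneg_right (by rw [hC]; linarith) t1
        · exact mul_le_mul_of_nonneg_right (by rw [hC]; linarith) t2
        · exact mul_le_mul_of_nonneg_right (by rw [hC]; linarith) t3
    _ = C * (ρ ^ d * B * (1 + Real.log ρ) + ρ ^ d / ρ ^ 2 * f 0 + F / ρ ^ 2) := by ring

end Pool.Agent.H20.BD
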